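import Mathlib

/-!
# Cellular automata on `ℤ^d` with three states and the von Neumann neighbourhood

* `Nb d`: the positions of the von Neumann neighbourhood (`none` is the cell itself, `some (i, true)` is
  `e_i` and `some (i, false)` is `-e_i`), `off`: the corresponding vector of `ℤ^d`;
* `glob f`: the global map of the automaton with local rule `f`;
* `NumberConserving f`: for every spatially periodic configuration (period `p i > 0` in the direction `i`)
  the sum of the states over one period does not change.
-/

set_option autoImplicit false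

namespace Pool.Agent.Q168.CA

/-- the positions of the von Neumann neighbourhood: `none` is the cell itself, `some (i, true)` is `e_i`,
`some (i, false)` is `-e_i` -/
abbrev Nb (d : ℕ) := Option (Fin d × Bool)

/-- the vector of `ℤ^d` belonging to a position of the neighbourhood -/
def off {d : ℕ} : Nb d → (Fin d → ℤ)
  | none => 0
  | some (i, true) => Pi.single i 1
  | some (i, false) => Pi.single i (-1)

/-- the global map `F(x)_v = f((x_{v+u})_{u ∈ N})` of the cellular automaton with local rule `f` -/
def glob {d : ℕ} (f : (Nb d → Fin 3) → Fin 3) (x : (Fin d → ℤ) → Fin 3) : (Fin d → ℤ) → Fin 3 :=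
  fun v => f (fun u => x (v + off u))

/-- one period of a configuration with periods `p i` -/
noncomputable def box {d : ℕ} (p : Fin d → ℕ) : Finset (Fin d → ℤ) :=
  Fintype.piFinset (fun i => Finset.Ico 0 (p i : ℤ))

/-- for every configuration which is periodic along each coordinate direction the sum of the states over
one period is the same for `x` and `F(x)` -/
def NumberConserving {d : ℕ} (f : (Nb d → Fin 3) → Fin 3) : Prop :=
  ∀ p : Fin d → ℕ, (∀ i, 0 < p i) → ∀ x : (Fin d → ℤ) → Fin 3,
    (∀ v i, x (v + Pi.single i (p i : ℤ)) = x v) →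
    ∑ v ∈ box p, (glob f x v : ℕ) = ∑ v ∈ box p, (x v : ℕ)

/-- the offsets in the torus `(ℤ/5)^d` -/
def offT {d : ℕ} : Nb d → (Fin d → ZMod 5)
  | none => 0
  | some (i, true) => Pi.single i 1
  | some (i, false) => Pi.single i (-1)

/-- the negative of a position -/
def ng {d : ℕ} : Nb d → Nb d
  | none => none
  | some (i, b) => some (i, !b)

@[simp] theorem ng_ng {d : ℕ} (u : Nb d) : ng (ng u) = u := by
  rcases u with _ | ⟨i, b⟩ <;> simp [ng]

theorem ng_eq_self {d : ℕ} (u : Nb d) : ng u = u ↔ u = none := by
  rcases u with _ | ⟨i, b⟩ <;> simp [ng]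

theorem ng_inj {d : ℕ} {u v : Nb d} (h : ng u = ng v) : u = v := by
  rw [← ng_ng u, h, ng_ng]

theorem offT_ng {d : ℕ} (u : Nb d) : offT (ng u) = - offT u := by
  rcases u with _ | ⟨i, b⟩
  · simp [ng, offT]
  · cases b <;> simp [ng, offT, ← Pi.single_neg]

/-- number conservation on the torus -/
def NCT {d : ℕ} (f : (Nb d → Fin 3) → Fin 3) : Prop :=
  ∀ x : (Fin d → ZMod 5) → Fin 3,
    ∑ v, (f (fun u => x (v + offT u)) : ℕ) = ∑ v, (x v : ℕ)

theorem cast_off {d : ℕ} (u : Nb d) (v : Fin d → ℤ) :
    (fun i => (((v + off u) i : ℤ) : ZMod 5)) = (fun i => ((v i : ℤ) : ZMod 5)) + offT u := by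
  funext i
  rcases u with _ | ⟨j, b⟩
  · simp [off, offT]
  · cases b
    · by_cases h : i = j
      · subst h; simp [off, offT]
      · simp [off, offT, h]
    · by_cases h : i = j
      · subst h; simp [off, offT]
      · simp [off, offT, h]

theorem sum_box {d : ℕ} (g : (Fin d → ZMod 5) → ℕ) :
    ∑ v ∈ box (fun _ : Fin d => 5), g (fun i => ((v i : ℤ) : ZMod 5)) = ∑ v, g v := by
  refine Finset.sum_bij (fun v _ => fun i => ((v i : ℤ) : ZMod 5)) (fun v _ => Finset.mem_univ _) ?_ ?_
    (fun v _ => rfl)
  · intro v hv w hw h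
    funext i
    have h1 : ((v i : ℤ) : ZMod 5) = ((w i : ℤ) : ZMod 5) := congrFun h i
    rw [ZMod.intCast_eq_intCast_iff_dvd_sub] at h1
    have h2 := Finset.mem_Ico.1 (Fintype.mem_piFinset.1 hv i)
    have h3 := Finset.mem_Ico.1 (Fintype.mem_piFinset.1 hw i)
    obtain ⟨k, hk⟩ := h1
    push_cast at h2 h3 hk
    omega
  · intro v _
    refine ⟨fun i => ((v i).val : ℤ), ?_, ?_⟩
    · refine Fintype.mem_piFinset.2 (fun i => Finset.mem_Ico.2 ⟨by positivity, ?_⟩)
      have := (v i).val_lt
      exact_mod_cast this
    · funext i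
      simp

theorem NCT_of_NC {d : ℕ} (f : (Nb d → Fin 3) → Fin 3) (h : NumberConserving f) : NCT f := by
  intro x
  have h1 := h (fun _ => 5) (fun _ => by norm_num) (fun v => x (fun i => ((v i : ℤ) : ZMod 5))) (by
    intro v i
    congr 1
    funext j
    by_cases hj : j = i
    · subst hj
      have : ((5 : ℤ) : ZMod 5) = 0 := by decide
      simp only [Pi.add_apply, Pi.single_eq_same]
      push_cast
      rw [show ((5 : ZMod 5)) = 0 from by decide, add_zero]
    · simp [hj])
  rw [sum_box (fun v => (x v : ℕ))] at h1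
  rw [← h1, ← sum_box]
  refine Finset.sum_congr rfl (fun v _ => ?_)
  unfold glob
  congr 2
  funext u
  exact congrArg x (cast_off u v).symm

end Pool.Agent.Q168.CA
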