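import Pool.Agent.Q168.CA.Final

/-!
# Reversible number-conserving automata are trivial (end of the proof)
-/

set_option autoImplicit false

namespace Pool.Agent.Q168.CA

variable {d : ℕ}

theorem exists_w (f : (Nb d → Fin 3) → Fin 3) (hf : NCT f) :
    ∃ w : Nb d, f (one w 1) = 1 ∧ ∀ u, u ≠ w → f (one u 1) = 0 := by
  classical
  have h := sum_one f hf 1
  have h1 : ∑ u : Nb d, (f (one u 1) : ℕ) = 1 := by exact_mod_cast h
  obtain ⟨w, hw⟩ : ∃ w, (f (one w 1) : ℕ) ≠ 0 := by
    by_contra hcon
    push Not at hcon
    rw [Finset.sum_eq_zero (fun u _ => hcon u)] at h1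
    omega
  rw [← Finset.add_sum_erase _ _ (Finset.mem_univ w)] at h1
  refine ⟨w, Fin.ext ?_, fun u hu => ?_⟩
  · show (f (one w 1) : ℕ) = 1
    omega
  · have h2 : ∑ u ∈ Finset.univ.erase w, (f (one u 1) : ℕ) = 0 := by omega
    have h3 := (Finset.sum_eq_zero_iff.1 h2) u (Finset.mem_erase.2 ⟨hu, Finset.mem_univ _⟩)
    exact Fin.ext h3

theorem one_true (i : Fin d) (a : Fin 3) : one (some (i, true)) a = lpat i 0 0 a := by
  funext s; unfold one lpat; split_ifs <;> rfl

theorem one_false (i : Fin d) (a : Fin 3) : one (some (i, false)) a = lpat i a 0 0 := by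
  funext s; unfold one lpat
  by_cases h : s = some (i, false)
  · subst h; simp
  · simp [h]

theorem zero_of_sum {f : (Nb d → Fin 3) → Fin 3} (hf : NCT f) (w : Nb d) (a : Fin 3)
    (h : f (one w a) = a) : ∀ u, u ≠ w → f (one u a) = 0 := by
  classical
  intro u hu
  have h0 := sum_one f hf a
  have h1 : ∑ u : Nb d, (f (one u a) : ℕ) = a := by exact_mod_cast h0
  rw [← Finset.add_sum_erase _ _ (Finset.mem_univ w), h] at h1
  have h2 : ∑ u ∈ Finset.univ.erase w, (f (one u a) : ℕ) = 0 := by omega
  exact Fin.ext ((Finset.sum_eq_zero_iff.1 h2) u (Finset.mem_erase.2 ⟨hu, Finset.mem_univ _⟩))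

/-- the values at the singles and the values of the line rules -/
theorem singles (f : (Nb d → Fin 3) → Fin 3) (hf : NCT f) (hinj : Function.Injective (glob f)) :
    ∃ w : Nb d, (∀ a, f (one w a) = a) ∧ (∀ u a, u ≠ w → f (one u a) = 0) ∧
      (∀ i, w = some (i, true) → ∀ l c r, f (lpat i l c r) = r) ∧
      (∀ i, w = some (i, false) → ∀ l c r, f (lpat i l c r) = l) ∧
      (w = none → ∀ i l c r, f (lpat i l c r) = c) := by
  obtain ⟨w, hw1, hw0⟩ := exists_w f hf
  have h10 : (1 : Fin 3) ≠ 0 := by decide
  have c1 : ∀ i, w = some (i, true) → ∀ l c r, f (lpat i l c r) = r := by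
    intro i hi
    subst hi
    rw [one_true] at hw1
    rcases line_class f hf hinj i with h | h | h
    · rw [h] at hw1; exact absurd hw1.symm h10
    · rw [h] at hw1; exact absurd hw1.symm h10
    · exact h
  have c2 : ∀ i, w = some (i, false) → ∀ l c r, f (lpat i l c r) = l := by
    intro i hi
    subst hi
    rw [one_false] at hw1
    rcases line_class f hf hinj i with h | h | h
    · exact h
    · rw [h] at hw1; exact absurd hw1.symm h10
    · rw [h] at hw1; exact absurd hw1.symm h10
  have c3 : w = none → ∀ i l c r, f (lpat i l c r) = c := by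
    intro hw i
    subst hw
    have e1 := hw0 (some (i, true)) (by simp)
    have e2 := hw0 (some (i, false)) (by simp)
    rw [one_true] at e1
    rw [one_false] at e2
    rcases line_class f hf hinj i with h | h | h
    · rw [h] at e2; exact absurd e2 h10
    · exact h
    · rw [h] at e1; exact absurd e1 h10
  have hwa : ∀ a, f (one w a) = a := by
    intro a
    rcases w with _ | ⟨i, t⟩
    · classical
      have h0 := sum_one f hf a
      have h1 : ∑ u : Nb d, (f (one u a) : ℕ) = a := by exact_mod_cast h0
      rw [← Finset.add_sum_erase _ _ (Finset.mem_univ (none : Nb d))] at h1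
      have h2 : ∑ u ∈ Finset.univ.erase (none : Nb d), (f (one u a) : ℕ) = 0 := by
        refine Finset.sum_eq_zero (fun u hu => ?_)
        have hu' := (Finset.mem_erase.1 hu).1
        rcases u with _ | ⟨i, t⟩
        · exact absurd rfl hu'
        · cases t
          · rw [one_false, c3 rfl]; rfl
          · rw [one_true, c3 rfl]; rfl
      exact Fin.ext (by omega)
    · cases t
      · rw [one_false, c2 i rfl]
      · rw [one_true, c1 i rfl]
  exact ⟨w, hwa, fun u a hu => zero_of_sum hf w a (hwa a) u hu, c1, c2, c3⟩

/-- the values at the pairs, `w = none` -/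
theorem pairs_none (f : (Nb d → Fin 3) → Fin 3) (hf : NCT f)
    (h1 : ∀ a, f (one none a) = a) (h2 : ∀ u a, u ≠ none → f (one u a) = 0)
    (h3 : ∀ i l c r, f (lpat i l c r) = c) (u v : Nb d) (huv : u ≠ v) (a b : Fin 3) :
    (f (two u a v b) : ℤ) = (if u = none then (a : ℤ) else 0) + (if v = none then (b : ℤ) else 0) := by
  classical
  have hng : ∀ u : Nb d, u ≠ none → ng u ≠ none := fun u hu h => hu (by rw [← ng_ng u, h]; rfl)
  have A : ∀ u v : Nb d, u ≠ none → v ≠ none → u ≠ v → ∀ a b, (f (two u a v b) : ℤ) = 0 := by
    intro u v hu hv huv a b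
    by_cases hn : ng v = u
    · have hv' : v = ng u := by rw [← hn, ng_ng]
      rw [hv', pair_opp f hf u hu, h2 u a hu, h2 _ b (hng u hu)]; rfl
    · have := pair_gen f hf u v huv hn a b
      rw [h2 u a hu, h2 v b hv, h2 _ a (hng v hv), h2 _ b (hng u hu)] at this
      simp only [Fin.val_zero, Nat.cast_zero, add_zero] at this
      omega
  have B : ∀ v : Nb d, v ≠ none → ∀ a b, (f (two none b v a) : ℤ) = b := by
    intro v hv a b
    obtain ⟨x, p, hp, hxp, hxn, hfx, hfx'⟩ : ∃ x : Nb d → Fin 3, ∃ p : Nb d, ng p = v ∧ x p = b ∧
        x none = a ∧ f x = a ∧ f (Function.update x p 0) = a := by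
      rcases v with _ | ⟨i, t⟩
      · exact absurd rfl hv
      · cases t
        · refine ⟨lpat i 0 a b, some (i, true), rfl, by simp [lpat], by simp [lpat], h3 _ _ _ _, ?_⟩
          have : Function.update (lpat i 0 a b) (some (i, true)) 0 = lpat i 0 a 0 := by
            funext s
            by_cases hs : s = some (i, true)
            · subst hs; simp [lpat]
            · rw [Function.update_of_ne hs]; simp [lpat, hs]
          rw [this, h3]
        · refine ⟨lpat i b a 0, some (i, false), rfl, by simp [lpat], by simp [lpat], h3 _ _ _ _, ?_⟩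
          have : Function.update (lpat i b a 0) (some (i, false)) 0 = lpat i 0 a 0 := by
            funext s
            by_cases hs : s = some (i, false)
            · subst hs; simp [lpat]
            · rw [Function.update_of_ne hs]; simp [lpat, hs]
          rw [this, h3]
    have hpn : p ≠ none := by
      rintro rfl
      exact hv hp.symm
    have h := local_identity f hf x p
    have hmem : (none : Nb d) ∈ Finset.univ.erase p := Finset.mem_erase.2 ⟨Ne.symm hpn, Finset.mem_univ _⟩
    rw [← Finset.add_sum_erase _ _ hmem, hfx, hfx', hxp, hp] at h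
    have e0 : ng (none : Nb d) = none := rfl
    rw [e0, Function.update_of_ne (Ne.symm hpn), hxn, two_zero_left _ _ _ (Ne.symm hv), h2 v a hv] at h
    rw [Finset.sum_eq_zero] at h
    · simp only [sub_self, Fin.val_zero, Nat.cast_zero, sub_zero, add_zero, zero_add] at h
      exact h
    · intro u hu
      have hun := (Finset.mem_erase.1 hu).1
      by_cases huv : u = v
      · subst huv
        rw [two_self, two_self, h2 _ _ hun, h2 _ _ hun, sub_self]
      · rw [A u v hun hv huv, two_zero_left _ _ _ huv, h2 v _ hv]; rfl
  by_cases hu : u = none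
  · subst hu
    have hv : v ≠ none := Ne.symm huv
    rw [if_pos rfl, if_neg hv, add_zero, B v hv]
  · by_cases hv : v = none
    · subst hv
      rw [if_neg hu, if_pos rfl, zero_add, two_comm _ _ _ _ huv, B u hu]
    · rw [if_neg hu, if_neg hv, A u v hu hv huv, add_zero]

/-- the values at the pairs, `w = ± e_i` -/
theorem pairs_some (f : (Nb d → Fin 3) → Fin 3) (hf : NCT f) (w : Nb d) (hw : w ≠ none)
    (h1 : ∀ a, f (one w a) = a) (h2 : ∀ u a, u ≠ w → f (one u a) = 0)
    (h3 : ∀ a b, ∃ x : Nb d → Fin 3, x w = a ∧ (∀ u, u ≠ w → u ≠ ng w → x u = b) ∧ f x = a ∧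
      f (Function.update x w 0) = 0) (u v : Nb d) (huv : u ≠ v) (a b : Fin 3) :
    (f (two u a v b) : ℤ) = (if u = w then (a : ℤ) else 0) + (if v = w then (b : ℤ) else 0) := by
  classical
  have hwn : ng w ≠ w := fun h => hw ((ng_eq_self w).1 h)
  have A : ∀ u : Nb d, u ≠ w → u ≠ ng w → ∀ a b, (f (two u a (ng w) b) : ℤ) = 0 := by
    intro u hu hu' a b
    obtain ⟨x, hx1, hx2, hx3, hx4⟩ := h3 a b
    have h := local_identity f hf x w
    rw [hx1, hx3, hx4] at h
    have hzero : ∑ u ∈ Finset.univ.erase w, ((f (two u a (ng w) (x (ng u))) : ℤ) -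
        f (two u 0 (ng w) (Function.update x w 0 (ng u)))) = 0 := by
      simp only [Fin.val_zero, Nat.cast_zero] at h
      omega
    have hterm : ∀ u ∈ Finset.univ.erase w, (0 : ℤ) ≤ ((f (two u a (ng w) (x (ng u))) : ℤ) -
        f (two u 0 (ng w) (Function.update x w 0 (ng u)))) := by
      intro u hu
      have hu1 := (Finset.mem_erase.1 hu).1
      by_cases huw : u = ng w
      · subst huw
        rw [two_self, two_self, h2 _ _ hwn, h2 _ _ hwn, sub_self]
      · rw [two_zero_left _ _ _ huw, h2 _ _ hwn]
        simp only [Fin.val_zero, Nat.cast_zero, sub_zero]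
        omega
    have h5 := (Finset.sum_eq_zero_iff_of_nonneg hterm).1 hzero u (Finset.mem_erase.2 ⟨hu, Finset.mem_univ _⟩)
    rw [two_zero_left _ _ _ hu', h2 _ _ hwn] at h5
    have h6 : x (ng u) = b := by
      apply hx2
      · rintro rfl; exact hu' (by rw [ng_ng])
      · intro h7; exact hu (ng_inj h7)
    rw [h6] at h5
    simpa using h5
  -- a pair which contains `w`
  have B : ∀ v : Nb d, v ≠ w → ∀ a b, (f (two w a v b) : ℤ) = a := by
    intro v hv a b
    by_cases hvn : v = ng w
    · subst hvn
      rw [pair_opp f hf w hw, h1, h2 _ _ hwn]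
      simp
    · have hn : ng v ≠ w := by
        rintro rfl; exact hvn (by rw [ng_ng])
      have h := pair_gen f hf w v (Ne.symm hv) hn a b
      have h7 : ng v ≠ ng w := fun h => hv (ng_inj h)
      rw [h1, h2 _ _ hv, h2 _ _ hn, h2 _ _ hwn, A (ng v) hn h7] at h
      simpa using h
  by_cases hu : u = w
  · subst hu
    rw [if_pos rfl, if_neg (Ne.symm huv), add_zero, B v (Ne.symm huv)]
  · by_cases hv : v = w
    · subst hv
      rw [if_neg hu, if_pos rfl, zero_add, two_comm _ _ _ _ huv, B u hu]
    · rw [if_neg hu, if_neg hv, add_zero]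
      by_cases hu' : u = ng w
      · subst hu'
        rw [two_comm _ _ _ _ huv]
        exact A v hv (Ne.symm huv) _ _
      · by_cases hv' : v = ng w
        · subst hv'
          exact A u hu hu' _ _
        · by_cases hn : ng v = u
          · have hv2 : v = ng u := by rw [← hn, ng_ng]
            have hun : u ≠ none := by
              rintro rfl
              exact huv hv2.symm
            have hv3 : ng u ≠ w := by rw [← hv2]; exact hv
            rw [hv2, pair_opp f hf u hun, h2 _ _ hu, h2 _ _ hv3]; rfl
          · have h := pair_gen f hf u v huv hn a b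
            have e1 : ng v ≠ w := by rintro rfl; exact hv' (by rw [ng_ng])
            have e2 : ng u ≠ w := by rintro rfl; exact hu' (by rw [ng_ng])
            rw [h2 _ _ hu, h2 _ _ hv, h2 _ _ e1, h2 _ _ e2] at h
            simp only [Fin.val_zero, Nat.cast_zero, add_zero] at h
            omega

/-- **Classification**: the local rule of a reversible number-conserving automaton is a projection. -/
theorem projection (f : (Nb d → Fin 3) → Fin 3) (hf : NCT f) (hinj : Function.Injective (glob f)) :
    ∃ w : Nb d, ∀ x, f x = x w := by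
  classical
  obtain ⟨w, h1, h2, c1, c2, c3⟩ := singles f hf hinj
  have hpair : ∀ u v : Nb d, u ≠ v → ∀ a b, (f (two u a v b) : ℤ) =
      (if u = w then (a : ℤ) else 0) + (if v = w then (b : ℤ) else 0) := by
    intro u v huv a b
    rcases w with _ | ⟨i, t⟩
    · exact pairs_none f hf h1 (fun u a hu => h2 u a hu) (c3 rfl) u v huv a b
    · refine pairs_some f hf (some (i, t)) (by simp) h1 h2 ?_ u v huv a b
      intro a b
      cases t
      · refine ⟨lpat i a b 0, by simp [lpat], ?_, c2 i rfl _ _ _, ?_⟩
        · intro u hu hu'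
          have e1 : u ≠ some (i, true) := hu'
          simp [lpat, hu, e1]
        · have : Function.update (lpat i a b 0) (some (i, false)) 0 = lpat i 0 b 0 := by
            funext s
            by_cases hs : s = some (i, false)
            · subst hs; simp [lpat]
            · rw [Function.update_of_ne hs]; simp [lpat, hs]
          rw [this, c2 i rfl]
      · refine ⟨lpat i 0 b a, by simp [lpat], ?_, c1 i rfl _ _ _, ?_⟩
        · intro u hu hu'
          have e1 : u ≠ some (i, false) := hu'
          simp [lpat, hu, e1]
        · have : Function.update (lpat i 0 b a) (some (i, true)) 0 = lpat i 0 b 0 := by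
            funext s
            by_cases hs : s = some (i, true)
            · subst hs; simp [lpat]
            · rw [Function.update_of_ne hs]; simp [lpat, hs]
          rw [this, c1 i rfl]
  have hone : ∀ u a, (f (one u a) : ℤ) = if u = w then (a : ℤ) else 0 := by
    intro u a
    split_ifs with h
    · subst h; rw [h1]
    · rw [h2 u a h]; rfl
  refine ⟨w, ?_⟩
  have main : ∀ (s : Finset (Nb d)) (x : Nb d → Fin 3), (∀ u, u ∉ s → x u = 0) → (f x : ℤ) = x w := by
    intro s
    induction s using Finset.induction_on with
    | empty =>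
      intro x hx
      have : x = fun _ => 0 := funext (fun u => hx u (Finset.notMem_empty _))
      rw [this, f_zero f hf]
    | insert p s hp ih =>
      intro x hx
      have ih' := ih (Function.update x p 0) (by
        intro u hu
        by_cases hup : u = p
        · subst hup; simp
        · rw [Function.update_of_ne hup]
          exact hx u (by simp [hup, hu]))
      have h := local_identity f hf x p
      have e : ∑ u ∈ Finset.univ.erase p, ((f (two u (x p) (ng p) (x (ng u))) : ℤ) -
          f (two u 0 (ng p) (Function.update x p 0 (ng u)))) =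
          ∑ u ∈ Finset.univ.erase p, (if u = w then (x p : ℤ) else 0) := by
        refine Finset.sum_congr rfl (fun u hu => ?_)
        have hup := (Finset.mem_erase.1 hu).1
        by_cases hun : u = ng p
        · subst hun
          rw [two_self, two_self, hone, hone]
          simp
        · have h5 : ng u ≠ p := by rintro rfl; exact hun (by rw [ng_ng])
          rw [two_zero_left _ _ _ hun, Function.update_of_ne h5, hpair u (ng p) hun, hone]
          ring
      rw [e, ih'] at h
      by_cases hpw : p = w
      · subst hpw
        rw [Finset.sum_eq_zero, Function.update_self] at h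
        · simp only [Fin.val_zero, Nat.cast_zero, sub_zero, add_zero] at h
          exact h
        · intro u hu
          rw [if_neg (Finset.mem_erase.1 hu).1]
      · rw [Finset.sum_eq_single w, if_pos rfl, Function.update_of_ne (Ne.symm hpw)] at h
        · omega
        · intro u _ hu; rw [if_neg hu]
        · intro hw'; exact absurd (Finset.mem_erase.2 ⟨Ne.symm hpw, Finset.mem_univ _⟩) hw'
  intro x
  have := main Finset.univ x (fun u hu => absurd (Finset.mem_univ u) hu)
  exact Fin.ext (by exact_mod_cast this)

end Pool.Agent.Q168.CA
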