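import Pool.Agent.Q168.CA.Main

/-!
# Reversible number-conserving automata are trivial
-/

set_option autoImplicit false

namespace Pool.Agent.Q168.CA

variable {d : ℕ}

theorem two_self (u : Nb d) (a b : Fin 3) : two u a u b = one u a := by
  funext s; unfold two one; split_ifs <;> rfl

theorem two_zero_left (u v : Nb d) (b : Fin 3) (h : u ≠ v) : two u 0 v b = one v b := by
  funext s; unfold two one
  by_cases h1 : s = u
  · subst h1; simp [h]
  · simp [h1]

theorem two_zero_right (u v : Nb d) (a : Fin 3) : two u a v 0 = one u a := by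
  funext s; unfold two one
  split_ifs <;> rfl

theorem one_zero (u : Nb d) : one u 0 = fun _ => 0 := by
  funext s; unfold one; split_ifs <;> rfl

theorem two_comm (u v : Nb d) (a b : Fin 3) (h : u ≠ v) : two u a v b = two v b u a := by
  funext s; unfold two
  by_cases h1 : s = u
  · subst h1; simp [h]
  · simp [h1]

/-- the sum over the singles -/
theorem sum_one (f : (Nb d → Fin 3) → Fin 3) (hf : NCT f) (a : Fin 3) :
    ∑ u, (f (one u a) : ℤ) = a := by
  classical
  have h := local_identity f hf (one none a) none
  have h0 : (f (fun _ => 0) : ℕ) = 0 := by rw [f_zero f hf]; rfl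
  rw [← Finset.add_sum_erase _ _ (Finset.mem_univ (none : Nb d))]
  have e1 : Function.update (one (none : Nb d) a) none 0 = fun _ => 0 := by
    funext s
    by_cases hs : s = none
    · subst hs; simp
    · rw [Function.update_of_ne hs]; simp [one, hs]
  rw [e1] at h
  have e2 : one (none : Nb d) a none = a := by simp [one]
  rw [e2] at h
  have e3 : ∑ u ∈ Finset.univ.erase (none : Nb d), ((f (two u a (ng none) (one none a (ng u))) : ℤ) -
      f (two u 0 (ng none) 0)) = ∑ u ∈ Finset.univ.erase (none : Nb d), (f (one u a) : ℤ) := by
    refine Finset.sum_congr rfl (fun u hu => ?_)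
    have hu' := (Finset.mem_erase.1 hu).1
    have e4 : ng u ≠ none := by
      intro h5
      apply hu'
      have := congrArg ng h5
      rw [ng_ng] at this
      exact this
    have e5 : one (none : Nb d) a (ng u) = 0 := by simp [one, e4]
    rw [e5, two_zero_right, two_zero_right, one_zero]
    omega
  rw [e3] at h
  omega

/-- the identity for two opposite positions -/
theorem pair_opp (f : (Nb d → Fin 3) → Fin 3) (hf : NCT f) (p : Nb d) (hp : p ≠ none) (a b : Fin 3) :
    (f (two p a (ng p) b) : ℤ) = f (one p a) + f (one (ng p) b) := by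
  classical
  have hpn : p ≠ ng p := fun h => hp ((ng_eq_self p).1 h.symm)
  have h := local_identity f hf (two p a (ng p) b) p
  have h0 : (f (fun _ => 0) : ℕ) = 0 := by rw [f_zero f hf]; rfl
  have hs := sum_one f hf a
  rw [← Finset.add_sum_erase _ _ (Finset.mem_univ p)] at hs
  have e1 : Function.update (two p a (ng p) b) p 0 = one (ng p) b := by
    funext s
    by_cases h1 : s = p
    · subst h1; simp [one, hpn]
    · rw [Function.update_of_ne h1]; simp [two, one, h1]
  have e2 : two p a (ng p) b p = a := by simp [two]
  rw [e1, e2] at h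
  have e3 : ∑ u ∈ Finset.univ.erase p, ((f (two u a (ng p) (two p a (ng p) b (ng u))) : ℤ) -
      f (two u 0 (ng p) (one (ng p) b (ng u)))) = ∑ u ∈ Finset.univ.erase p, (f (one u a) : ℤ) := by
    refine Finset.sum_congr rfl (fun u hu => ?_)
    have hu' := (Finset.mem_erase.1 hu).1
    by_cases h1 : u = ng p
    · subst h1
      rw [two_self, two_self, one_zero]
      omega
    · have h2 : ng u ≠ p := by
        rintro rfl
        exact h1 (by rw [ng_ng])
      have h3 : ng u ≠ ng p := fun h => hu' (ng_inj h)
      have e4 : two p a (ng p) b (ng u) = 0 := by simp [two, h2, h3]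
      have e5 : one (ng p) b (ng u) = 0 := by simp [one, h3]
      rw [e4, e5, two_zero_right, two_zero_right, one_zero]
      omega
  rw [e3] at h
  omega

/-- the identity for two positions which are not opposite -/
theorem pair_gen (f : (Nb d → Fin 3) → Fin 3) (hf : NCT f) (p q : Nb d) (hpq : p ≠ q) (hn : ng q ≠ p)
    (a b : Fin 3) :
    (f (two p a q b) : ℤ) + f (two (ng q) a (ng p) b) =
      f (one p a) + f (one q b) + f (one (ng q) a) + f (one (ng p) b) := by
  classical
  have h := local_identity f hf (two p a q b) p
  have h0 : (f (fun _ => 0) : ℕ) = 0 := by rw [f_zero f hf]; rfl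
  have hs := sum_one f hf a
  have hmem : ng q ∈ Finset.univ.erase p := Finset.mem_erase.2 ⟨hn, Finset.mem_univ _⟩
  rw [← Finset.add_sum_erase _ _ (Finset.mem_univ p), ← Finset.add_sum_erase _ _ hmem] at hs
  rw [← Finset.add_sum_erase _ _ hmem] at h
  have e1 : Function.update (two p a q b) p 0 = one q b := by
    funext s
    by_cases h1 : s = p
    · subst h1; simp [one, hpq]
    · rw [Function.update_of_ne h1]; simp [two, one, h1]
  have e2 : two p a q b p = a := by simp [two]
  have hnpq : ng q ≠ ng p := fun h => hpq (ng_inj h).symm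
  rw [e1, e2, ng_ng] at h
  have e6 : two p a q b q = b := by simp [two, Ne.symm hpq]
  have e7 : one q b q = b := by simp [one]
  rw [e6, e7, two_zero_left _ _ _ hnpq] at h
  have e3 : ∑ u ∈ (Finset.univ.erase p).erase (ng q), ((f (two u a (ng p) (two p a q b (ng u))) : ℤ) -
      f (two u 0 (ng p) (one q b (ng u)))) =
      ∑ u ∈ (Finset.univ.erase p).erase (ng q), (f (one u a) : ℤ) := by
    refine Finset.sum_congr rfl (fun u hu => ?_)
    have hu1 := (Finset.mem_erase.1 hu).1
    have hu' := (Finset.mem_erase.1 (Finset.mem_erase.1 hu).2).1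
    have h3 : ng u ≠ q := by
      rintro rfl
      exact hu1 (by rw [ng_ng])
    have e5 : one q b (ng u) = 0 := by simp [one, h3]
    by_cases h1 : u = ng p
    · subst h1
      rw [two_self, two_self, one_zero]
      omega
    · have h2 : ng u ≠ p := by
        rintro rfl
        exact h1 (by rw [ng_ng])
      have e4 : two p a q b (ng u) = 0 := by simp [two, h2, h3]
      rw [e4, e5, two_zero_right, two_zero_right, one_zero]
      omega
  rw [e3] at h
  omega

end Pool.Agent.Q168.CA
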