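import Mathlib

/-!
# The finite part: one-dimensional three-state rules

A number-conserving rule `G(l, c, r)` with three states is determined by `H(a, b) = G(0, a, b)`.
-/

set_option autoImplicit false

namespace Pool.Agent.Q168.CA

/-- the table of `H(a, b) = G(0, a, b)` -/
def HH (a1 a2 b0 b1 b2 c0 c1 c2 : Fin 3) : Fin 3 → Fin 3 → ℕ
  | 0, 0 => 0
  | 0, 1 => a1
  | 0, 2 => a2
  | 1, 0 => b0
  | 1, 1 => b1
  | 1, 2 => b2
  | 2, 0 => c0
  | 2, 1 => c1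
  | 2, 2 => c2

def pos (H : Fin 3 → Fin 3 → ℕ) (l c r : Fin 3) : ℕ := l + H 0 c + H c r
def neg (H : Fin 3 → Fin 3 → ℕ) (l c : Fin 3) : ℕ := H 0 l + H l c

def Valid (H : Fin 3 → Fin 3 → ℕ) : Prop :=
  ∀ l c r : Fin 3, neg H l c ≤ pos H l c r ∧ pos H l c r ≤ neg H l c + 2

instance (H : Fin 3 → Fin 3 → ℕ) : Decidable (Valid H) := by unfold Valid; infer_instance

def Coll (H : Fin 3 → Fin 3 → ℕ) (p q : Fin 4 → Fin 3) : Prop :=
  ∀ z : Fin 4, pos H (p (z - 1)) (p z) (p (z + 1)) + neg H (q (z - 1)) (q z) =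
    pos H (q (z - 1)) (q z) (q (z + 1)) + neg H (p (z - 1)) (p z)

instance (H : Fin 3 → Fin 3 → ℕ) (p q : Fin 4 → Fin 3) : Decidable (Coll H p q) := by
  unfold Coll; infer_instance

def pairsL : List ((Fin 4 → Fin 3) × (Fin 4 → Fin 3)) :=
  [(![0, 2, 0, 2], ![1, 1, 1, 1]), (![0, 0, 0, 2], ![0, 2, 0, 0]), (![0, 0, 2, 2], ![2, 2, 0, 0]),
   (![0, 2, 2, 2], ![2, 2, 0, 2]), (![0, 0, 1, 1], ![1, 1, 0, 0]), (![0, 0, 1, 2], ![0, 0, 2, 1]),
   (![0, 0, 2, 2], ![0, 1, 1, 2]), (![0, 0, 2, 2], ![1, 0, 2, 1])]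

/-- the check for one rule -/
def okB (a1 a2 b0 b1 b2 c0 c1 c2 : Fin 3) : Bool :=
  !(decide (Valid (HH a1 a2 b0 b1 b2 c0 c1 c2))) ||
    ((decide (a1 = 0) && decide (a2 = 0) && decide (b0 = 0) && decide (b1 = 0) && decide (b2 = 0) &&
      decide (c0 = 0) && decide (c1 = 0) && decide (c2 = 0)) ||
    (decide (a1 = 0) && decide (a2 = 0) && decide (b0 = 1) && decide (b1 = 1) && decide (b2 = 1) &&
      decide (c0 = 2) && decide (c1 = 2) && decide (c2 = 2)) ||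
    (decide (a1 = 1) && decide (a2 = 2) && decide (b0 = 0) && decide (b1 = 1) && decide (b2 = 2) &&
      decide (c0 = 0) && decide (c1 = 1) && decide (c2 = 2))) ||
    pairsL.any (fun p => decide (Coll (HH a1 a2 b0 b1 b2 c0 c1 c2) p.1 p.2))

set_option maxRecDepth 100000 in
theorem check : ∀ a1 a2 b0 b1 b2 c0 c1 c2 : Fin 3, okB a1 a2 b0 b1 b2 c0 c1 c2 = true := by
  decide +kernel

end Pool.Agent.Q168.CA
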