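import Pool.Agent.Q168.CA.Local
import Pool.Agent.Q168.CA.Finite

/-!
# The restriction to configurations which depend on one coordinate
-/

set_option autoImplicit false

namespace Pool.Agent.Q168.CA

/-- the pattern of a configuration which depends only on the `i`-th coordinate -/
def lpat {d : ℕ} (i : Fin d) (l c r : Fin 3) : Nb d → Fin 3 :=
  fun u => if u = some (i, true) then r else if u = some (i, false) then l else c

theorem val_eq (z : Fin 3) : ∃ n : ℕ, (z : ℕ) = n ∧ n < 3 := ⟨z, rfl, z.2⟩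

theorem lpat_off {d : ℕ} (i : Fin d) (y : ZMod 5 → Fin 3) (v : Fin d → ZMod 5) :
    (fun u => y ((v + offT u) i)) = lpat i (y (v i - 1)) (y (v i)) (y (v i + 1)) := by
  funext u
  unfold lpat
  split_ifs with h1 h2
  · subst h1; simp [offT]
  · subst h2; simp [offT, sub_eq_add_neg]
  · rcases tri u i with h | ⟨b, h, _⟩
    · simp [h.1]
    · cases b
      · exact absurd h h2
      · exact absurd h h1

theorem lpat_off' {d : ℕ} (i : Fin d) (y : ℤ → Fin 3) (v : Fin d → ℤ) :
    (fun u => y ((v + off u) i)) = lpat i (y (v i - 1)) (y (v i)) (y (v i + 1)) := by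
  funext u
  unfold lpat
  split_ifs with h1 h2
  · subst h1; simp [off]
  · subst h2; simp [off, sub_eq_add_neg]
  · rcases u with _ | ⟨j, b⟩
    · simp [off]
    · have hj : i ≠ j := by
        rintro rfl
        cases b
        · exact h2 rfl
        · exact h1 rfl
      cases b <;> simp [off, hj]

/-- sums over the torus of functions of one coordinate -/
theorem sum_coord {d : ℕ} (i : Fin d) : ∃ C : ℕ, 0 < C ∧ ∀ h : ZMod 5 → ℕ,
    ∑ v : Fin d → ZMod 5, h (v i) = C * ∑ k, h k := by
  classical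
  refine ⟨(Finset.univ.filter (fun v : Fin d → ZMod 5 => v i = 0)).card, ?_, fun h => ?_⟩
  · exact Finset.card_pos.2 ⟨0, by simp⟩
  · rw [← Finset.sum_fiberwise_of_maps_to (s := Finset.univ) (t := Finset.univ)
      (g := fun v : Fin d → ZMod 5 => v i) (fun _ _ => Finset.mem_univ _), Finset.mul_sum]
    refine Finset.sum_congr rfl (fun k _ => ?_)
    rw [Finset.sum_congr rfl (g := fun _ => h k) (by
      intro v hv
      rw [(Finset.mem_filter.1 hv).2]), Finset.sum_const, smul_eq_mul]
    congr 1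
    refine Finset.card_bij (fun v _ => v - Pi.single i k) ?_ ?_ ?_
    · intro v hv
      have := (Finset.mem_filter.1 hv).2
      simp [this]
    · intro a _ b _ hab
      exact sub_left_injective hab
    · intro v hv
      refine ⟨v + Pi.single i k, ?_, by simp⟩
      have := (Finset.mem_filter.1 hv).2
      simp [this]

/-- number conservation on the cycle of length five -/
theorem cyc5 {d : ℕ} (f : (Nb d → Fin 3) → Fin 3) (hf : NCT f) (i : Fin d) (y : ZMod 5 → Fin 3) :
    ∑ k, (f (lpat i (y (k - 1)) (y k) (y (k + 1))) : ℕ) = ∑ k, (y k : ℕ) := by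
  obtain ⟨C, hC, h⟩ := sum_coord i
  have h1 := hf (fun v => y (v i))
  simp_rw [lpat_off] at h1
  rw [h (fun k => (f (lpat i (y (k - 1)) (y k) (y (k + 1))) : ℕ)), h (fun k => (y k : ℕ))] at h1
  exact Nat.eq_of_mul_eq_mul_left hC h1

theorem lpat_zero {d : ℕ} (i : Fin d) : lpat i 0 0 0 = fun _ => 0 := by
  funext u; simp [lpat]

theorem f_zero {d : ℕ} (f : (Nb d → Fin 3) → Fin 3) (hf : NCT f) : f (fun _ => 0) = 0 := by
  have h1 := hf (fun _ => 0)
  simp only [Finset.sum_const, Fin.val_zero, smul_eq_mul, mul_zero] at h1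
  have h2 : (f (fun _ => 0) : ℕ) = 0 := by
    rcases Nat.mul_eq_zero.1 h1 with h | h
    · exact absurd (Finset.card_eq_zero.1 h) (Finset.univ_nonempty.ne_empty)
    · exact h
  exact Fin.ext h2

/-- a configuration of period five -/
def vec (l c r : Fin 3) : ZMod 5 → Fin 3 := fun k => if k = 0 then l else if k = 1 then c else if k = 2 then r
  else 0

theorem vec0 (l c r : Fin 3) : vec l c r 0 = l := rfl
theorem vec1 (l c r : Fin 3) : vec l c r 1 = c := rfl
theorem vec2 (l c r : Fin 3) : vec l c r 2 = r := rfl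
theorem vec3 (l c r : Fin 3) : vec l c r 3 = 0 := rfl
theorem vec4 (l c r : Fin 3) : vec l c r 4 = 0 := rfl

/-- the flux identity -/
theorem flux {d : ℕ} (f : (Nb d → Fin 3) → Fin 3) (hf : NCT f) (i : Fin d) (l c r : Fin 3) :
    (f (lpat i l c r) : ℤ) + f (lpat i 0 0 l) + f (lpat i 0 l c) =
      l + f (lpat i 0 0 c) + f (lpat i 0 c r) := by
  have h0 : (f (lpat i 0 0 0) : ℕ) = 0 := by rw [lpat_zero, f_zero f hf]; rfl
  have hs : ∀ g : ZMod 5 → ℕ, ∑ k, g k = g 0 + g 1 + g 2 + g 3 + g 4 := by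
    intro g
    exact Fin.sum_univ_five g
  have h1 := cyc5 f hf i (vec l c r)
  have h2 := cyc5 f hf i (vec 0 c r)
  rw [hs, hs] at h1 h2
  have e0 : (0 : ZMod 5) - 1 = 4 := by decide
  have e1 : (1 : ZMod 5) - 1 = 0 := by decide
  have e2 : (2 : ZMod 5) - 1 = 1 := by decide
  have e3 : (3 : ZMod 5) - 1 = 2 := by decide
  have e4 : (4 : ZMod 5) - 1 = 3 := by decide
  have f0 : (0 : ZMod 5) + 1 = 1 := by decide
  have f1 : (1 : ZMod 5) + 1 = 2 := by decide
  have f2 : (2 : ZMod 5) + 1 = 3 := by decide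
  have f3 : (3 : ZMod 5) + 1 = 4 := by decide
  have f4 : (4 : ZMod 5) + 1 = 0 := by decide
  rw [e0, e1, e2, e3, e4, f0, f1, f2, f3, f4] at h1 h2
  simp only [vec0, vec1, vec2, vec3, vec4, Fin.val_zero] at h1 h2
  omega

/-- the one-dimensional automaton is injective on configurations of period four -/
theorem inj4 {d : ℕ} (f : (Nb d → Fin 3) → Fin 3) (hinj : Function.Injective (glob f)) (i : Fin d)
    (p q : Fin 4 → Fin 3)
    (h : ∀ z : Fin 4, f (lpat i (p (z - 1)) (p z) (p (z + 1))) = f (lpat i (q (z - 1)) (q z) (q (z + 1)))) :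
    p = q := by
  have key : (fun v : Fin d → ℤ => (p : ZMod 4 → Fin 3) ((v i : ℤ) : ZMod 4)) =
      (fun v : Fin d → ℤ => (q : ZMod 4 → Fin 3) ((v i : ℤ) : ZMod 4)) := by
    apply hinj
    funext v
    unfold glob
    have e1 : ∀ p : ZMod 4 → Fin 3, (fun u => p (((v + off u) i : ℤ) : ZMod 4)) =
        lpat i (p (((v i : ℤ) : ZMod 4) - 1)) (p ((v i : ℤ) : ZMod 4)) (p (((v i : ℤ) : ZMod 4) + 1)) := by
      intro p
      have := lpat_off' i (fun z : ℤ => p (z : ZMod 4)) v
      simp only [Int.cast_sub, Int.cast_add, Int.cast_one] at this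
      exact this
    show f (fun u => (p : ZMod 4 → Fin 3) (((v + off u) i : ℤ) : ZMod 4)) =
      f (fun u => (q : ZMod 4 → Fin 3) (((v + off u) i : ℤ) : ZMod 4))
    rw [e1 p, e1 q]
    exact h ((v i : ℤ) : ZMod 4)
  funext z
  obtain ⟨k, hk⟩ := ZMod.intCast_surjective (n := 4) z
  have h5 := congrFun key (fun _ => k)
  have h6 : (p : ZMod 4 → Fin 3) (k : ZMod 4) = (q : ZMod 4 → Fin 3) (k : ZMod 4) := h5
  rw [hk] at h6
  exact h6

end Pool.Agent.Q168.CA
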