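import Pool.Agent.Q168.CA.Defs

/-!
# The local identity of a number-conserving automaton
-/

set_option autoImplicit false

namespace Pool.Agent.Q168.CA

/-- the sign -/
def sg (b : Bool) : ZMod 5 := if b then 1 else -1

theorem tri {d : ℕ} (u : Nb d) (i : Fin d) :
    (offT u i = 0 ∧ ∀ b, u ≠ some (i, b)) ∨ ∃ b, u = some (i, b) ∧ offT u i = sg b := by
  rcases u with _ | ⟨j, b⟩
  · left
    simp [offT]
  · by_cases h : j = i
    · subst h
      right
      refine ⟨b, rfl, ?_⟩
      cases b <;> simp [offT, sg]
    · left
      refine ⟨?_, ?_⟩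
      · cases b <;> simp [offT, Ne.symm h]
      · intro b' hb
        apply h
        have := Option.some.inj hb
        exact (Prod.ext_iff.1 this).1

theorem key1 : ∀ a c e : Bool, c ≠ a → e ≠ a → sg a ≠ sg c + sg e := by decide
theorem key2 : ∀ a c e : Bool, c ≠ a → e ≠ a → sg a + sg a ≠ sg c + sg e := by decide
theorem key3 : ∀ a c : Bool, c ≠ a → sg a ≠ sg c := by decide
theorem key4 : ∀ a c : Bool, c ≠ a → sg a + sg a ≠ sg c := by decide
theorem key5 : ∀ a : Bool, sg a + sg a ≠ 0 := by decide
theorem key6 : ∀ a : Bool, sg a ≠ 0 := by decide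

theorem offT_inj {d : ℕ} {u v : Nb d} (h : offT u = offT v) : u = v := by
  rcases u with _ | ⟨i, a⟩
  · rcases v with _ | ⟨j, b⟩
    · rfl
    · exfalso
      have := congrFun h j
      rcases tri (some (j, b)) j with h1 | ⟨c, h1, h2⟩
      · exact h1.2 b rfl
      · rw [h2] at this
        exact key6 c (by simpa [offT] using this.symm)
  · have h0 := congrFun h i
    rcases tri (some (i, a)) i with h1 | ⟨c, h1, h2⟩
    · exact absurd rfl (h1.2 a)
    · rw [h2] at h0
      rcases tri v i with h3 | ⟨e, h3, h4⟩
      · rw [h3.1] at h0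
        exact absurd h0 (key6 c)
      · rw [h4] at h0
        by_cases hce : e = c
        · rw [h3, h1, hce]
        · exact absurd h0 (key3 c e hce)

theorem offB {d : ℕ} {s t u : Nb d} (i : Fin d) (a : Bool)
    (h : offT (some (i, a)) + offT s = offT t + offT u) (h1 : t ≠ some (i, a)) (h2 : u ≠ some (i, a)) :
    s = ng (some (i, a)) := by
  have h0 := congrFun h i
  simp only [Pi.add_apply] at h0
  have hp : offT (some (i, a)) i = sg a := by cases a <;> simp [offT, sg]
  rw [hp] at h0
  rcases tri s i with hs | ⟨b, hs, hs'⟩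
  · exfalso
    rw [hs.1, add_zero] at h0
    rcases tri t i with ht | ⟨c, ht, ht'⟩
    · rw [ht.1, zero_add] at h0
      rcases tri u i with hu | ⟨e, hu, hu'⟩
      · rw [hu.1] at h0
        exact key6 a h0
      · rw [hu'] at h0
        refine key3 a e ?_ h0
        rintro rfl
        exact h2 hu
    · have hca : c ≠ a := by rintro rfl; exact h1 ht
      rw [ht'] at h0
      rcases tri u i with hu | ⟨e, hu, hu'⟩
      · rw [hu.1, add_zero] at h0
        exact key3 a c hca h0
      · rw [hu'] at h0
        refine key1 a c e hca ?_ h0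
        rintro rfl
        exact h2 hu
  · by_cases hb : b = a
    · exfalso
      subst hb
      rw [hs'] at h0
      rcases tri t i with ht | ⟨c, ht, ht'⟩
      · rw [ht.1, zero_add] at h0
        rcases tri u i with hu | ⟨e, hu, hu'⟩
        · rw [hu.1] at h0
          exact key5 b h0
        · rw [hu'] at h0
          refine key4 b e ?_ h0
          rintro rfl
          exact h2 hu
      · have hca : c ≠ b := by rintro rfl; exact h1 ht
        rw [ht'] at h0
        rcases tri u i with hu | ⟨e, hu, hu'⟩
        · rw [hu.1, add_zero] at h0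
          exact key4 b c hca h0
        · rw [hu'] at h0
          refine key2 b c e hca ?_ h0
          rintro rfl
          exact h2 hu
    · rw [hs]
      have h5 : ∀ a b : Bool, ¬ b = a → b = !a := by decide
      rw [h5 a b hb]; rfl

theorem off_add {d : ℕ} {p s t u : Nb d} (h : offT p + offT s = offT t + offT u) (hpt : p ≠ t)
    (hpu : p ≠ u) : s = ng p ∧ u = ng t := by
  have hs : s = ng p := by
    rcases p with _ | ⟨i, a⟩
    · rcases t with _ | ⟨k, c⟩
      · exact absurd rfl hpt
      · by_cases hs : s = some (k, c)
        · exfalso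
          subst hs
          apply hpu
          apply offT_inj
          have : offT (none : Nb d) = 0 := rfl
          rw [this] at h ⊢
          rw [zero_add] at h
          exact (left_eq_add.1 h).symm
        · have h1 := offB k c h.symm hpt hs
          rw [h1, offT_ng] at h
          rw [add_neg_cancel] at h
          apply offT_inj
          have h3 : offT (none : Nb d) = 0 := rfl
          rw [h3, zero_add] at h
          rw [h, offT_ng, h3, neg_zero]
    · exact offB i a h (Ne.symm hpt) (Ne.symm hpu)
  refine ⟨hs, ?_⟩
  rw [hs, offT_ng, add_neg_cancel] at h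
  apply offT_inj
  rw [offT_ng]
  exact (neg_eq_of_add_eq_zero_right h.symm).symm

/-- the pattern with one nonzero cell -/
def one {d : ℕ} (u : Nb d) (a : Fin 3) : Nb d → Fin 3 := fun s => if s = u then a else 0

/-- the pattern with two nonzero cells -/
def two {d : ℕ} (u : Nb d) (a : Fin 3) (v : Nb d) (b : Fin 3) : Nb d → Fin 3 :=
  fun s => if s = u then a else if s = v then b else 0

/-- the extension of a pattern by `0` to the torus -/
noncomputable def ext {d : ℕ} (x : Nb d → Fin 3) : (Fin d → ZMod 5) → Fin 3 :=
  open Classical in fun v => if h : ∃ u, offT u = v then x h.choose else 0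

theorem ext_off {d : ℕ} (x : Nb d → Fin 3) (u : Nb d) : ext x (offT u) = x u := by
  unfold ext
  have h : ∃ w, offT w = offT u := ⟨u, rfl⟩
  rw [dif_pos h]
  congr 1
  exact offT_inj h.choose_spec

theorem ext_of_not {d : ℕ} (x : Nb d → Fin 3) (v : Fin d → ZMod 5) (h : ∀ u, offT u ≠ v) : ext x v = 0 := by
  unfold ext
  rw [dif_neg]
  rintro ⟨u, hu⟩
  exact h u hu

theorem sum_ext {d : ℕ} (x : Nb d → Fin 3) : ∑ v, (ext x v : ℤ) = ∑ u, (x u : ℤ) := by
  classical
  rw [← Finset.sum_subset (Finset.subset_univ (Finset.univ.image (offT (d := d)))), Finset.sum_image]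
  · exact Finset.sum_congr rfl (fun u _ => by rw [ext_off])
  · intro a _ b _ h
    exact offT_inj h
  · intro v _ hv
    rw [ext_of_not]
    · simp
    · intro u hu
      exact hv (Finset.mem_image.2 ⟨u, Finset.mem_univ _, hu⟩)

/-- the pattern seen by the cell `p - u`, `u ≠ p` -/
theorem ext_pattern {d : ℕ} (x : Nb d → Fin 3) (p u : Nb d) (hup : u ≠ p) :
    (fun s => ext x (offT p - offT u + offT s)) = two u (x p) (ng p) (x (ng u)) := by
  funext s
  unfold two
  split_ifs with h1 h2
  · subst h1
    rw [sub_add_cancel, ext_off]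
  · subst h2
    rw [offT_ng]
    have : offT p - offT u + - offT p = offT (ng u) := by rw [offT_ng]; abel
    rw [this, ext_off]
  · apply ext_of_not
    intro t ht
    have h3 : offT p + offT s = offT t + offT u := by rw [ht]; abel
    by_cases hpt : p = t
    · subst hpt
      exact h1 (offT_inj (add_left_cancel h3))
    · exact h2 (off_add h3 hpt (Ne.symm hup)).1

/-- **The local identity**: what happens if the cell `p` of a pattern is emptied. -/
theorem local_identity {d : ℕ} (f : (Nb d → Fin 3) → Fin 3) (hf : NCT f) (x : Nb d → Fin 3) (p : Nb d) :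
    (f x : ℤ) - f (Function.update x p 0) +
      ∑ u ∈ Finset.univ.erase p, ((f (two u (x p) (ng p) (x (ng u))) : ℤ) -
        f (two u 0 (ng p) (Function.update x p 0 (ng u)))) = x p := by
  classical
  set x' := Function.update x p 0 with hx'
  have h1 : (∑ v, (f (fun u => ext x (v + offT u)) : ℤ)) = ∑ u, (x u : ℤ) := by
    rw [← sum_ext]
    exact_mod_cast hf (ext x)
  have h2 : (∑ v, (f (fun u => ext x' (v + offT u)) : ℤ)) = ∑ u, (x' u : ℤ) := by
    rw [← sum_ext]
    exact_mod_cast hf (ext x')
  have h3 : ∑ u, (x u : ℤ) - ∑ u, (x' u : ℤ) = x p := by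
    rw [← Finset.sum_sub_distrib, Finset.sum_eq_single p]
    · rw [hx']; simp
    · intro b _ hb
      rw [hx', Function.update_of_ne hb, sub_self]
    · intro h; exact absurd (Finset.mem_univ _) h
  rw [← h3, ← h1, ← h2, ← Finset.sum_sub_distrib]
  have hinj : ∀ a ∈ (Finset.univ : Finset (Nb d)), ∀ b ∈ (Finset.univ : Finset (Nb d)),
      offT p - offT a = offT p - offT b → a = b := by
    intro a _ b _ h
    exact offT_inj (sub_right_injective h)
  rw [← Finset.sum_subset (Finset.subset_univ (Finset.univ.image (fun u : Nb d => offT p - offT u))),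
    Finset.sum_image hinj, ← Finset.add_sum_erase _ _ (Finset.mem_univ p)]
  · congr 1
    · simp only [sub_self, zero_add, ext_off]
    · refine Finset.sum_congr rfl (fun u hu => ?_)
      have hup := (Finset.mem_erase.1 hu).1
      rw [ext_pattern x p u hup, ext_pattern x' p u hup]
      rw [hx', Function.update_self]
  · intro v _ hv
    have : (fun u => ext x (v + offT u)) = (fun u => ext x' (v + offT u)) := by
      funext u
      by_cases h : ∃ t, offT t = v + offT u
      · obtain ⟨t, ht⟩ := h
        rw [← ht, ext_off, ext_off, hx', Function.update_of_ne]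
        rintro rfl
        apply hv
        refine Finset.mem_image.2 ⟨u, Finset.mem_univ _, ?_⟩
        rw [ht]; abel
      · push Not at h
        rw [ext_of_not _ _ h, ext_of_not _ _ h]
    rw [this, sub_self]

end Pool.Agent.Q168.CA
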