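import Pool.Agent.Q168.CA.Line

/-!
# The classification
-/

set_option autoImplicit false

namespace Pool.Agent.Q168.CA

/-- the classification of the reversible one-dimensional rules -/
theorem abs_class (G : Fin 3 → Fin 3 → Fin 3 → Fin 3) (h0 : G 0 0 0 = 0)
    (hflux : ∀ l c r : Fin 3, (G l c r : ℤ) + G 0 0 l + G 0 l c = l + G 0 0 c + G 0 c r)
    (hinj4 : ∀ p q : Fin 4 → Fin 3,
      (∀ z : Fin 4, G (p (z - 1)) (p z) (p (z + 1)) = G (q (z - 1)) (q z) (q (z + 1))) → p = q) :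
    (∀ l c r, G l c r = l) ∨ (∀ l c r, G l c r = c) ∨ (∀ l c r, G l c r = r) := by
  have hH : HH (G 0 0 1) (G 0 0 2) (G 0 1 0) (G 0 1 1) (G 0 1 2) (G 0 2 0) (G 0 2 1) (G 0 2 2) =
      fun a b => (G 0 a b : ℕ) := by
    funext a b
    have : ∀ a b : Fin 3, (a = 0 ∨ a = 1 ∨ a = 2) ∧ (b = 0 ∨ b = 1 ∨ b = 2) := by decide
    rcases this a b with ⟨rfl | rfl | rfl, rfl | rfl | rfl⟩ <;> simp [HH, h0]
  have hc := check (G 0 0 1) (G 0 0 2) (G 0 1 0) (G 0 1 1) (G 0 1 2) (G 0 2 0) (G 0 2 1) (G 0 2 2)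
  set H : Fin 3 → Fin 3 → ℕ := fun a b => (G 0 a b : ℕ) with hHdef
  have hpn : ∀ l c r, pos H l c r = neg H l c + (G l c r : ℕ) := by
    intro l c r
    have := hflux l c r
    simp only [pos, neg, hHdef]
    omega
  have hval : Valid H := by
    intro l c r
    have h1 := hpn l c r
    have h2 := (G l c r).2
    omega
  unfold okB at hc
  rw [hH] at hc
  simp only [hval, decide_true, Bool.not_true, Bool.false_or, Bool.or_eq_true, Bool.and_eq_true,
    decide_eq_true_eq, List.any_eq_true] at hc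
  have hGval : ∀ l c r : Fin 3, (G l c r : ℤ) = l + G 0 0 c + G 0 c r - G 0 0 l - G 0 l c := by
    intro l c r
    have := hflux l c r
    omega
  have all3 : ∀ (P : Fin 3 → Fin 3 → Fin 3 → Prop), (∀ a b c : Fin 3, (a = 0 ∨ a = 1 ∨ a = 2) →
      (b = 0 ∨ b = 1 ∨ b = 2) → (c = 0 ∨ c = 1 ∨ c = 2) → P a b c) → ∀ a b c, P a b c := by
    intro P h a b c
    have : ∀ a : Fin 3, a = 0 ∨ a = 1 ∨ a = 2 := by decide
    exact h a b c (this a) (this b) (this c)
  rcases hc with ((h | h) | h) | h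
  · left
    refine all3 _ (fun l c r hl hc hr => ?_)
    obtain ⟨⟨⟨⟨⟨⟨⟨e1, e2⟩, e3⟩, e4⟩, e5⟩, e6⟩, e7⟩, e8⟩ := h
    have h1 := hGval l c r
    rcases hl with rfl | rfl | rfl <;> rcases hc with rfl | rfl | rfl <;> rcases hr with rfl | rfl | rfl <;>
      (simp only [h0, e1, e2, e3, e4, e5, e6, e7, e8] at h1 ⊢; try (apply Fin.ext; simp at h1 ⊢; omega))
  · right; left
    refine all3 _ (fun l c r hl hc hr => ?_)
    obtain ⟨⟨⟨⟨⟨⟨⟨e1, e2⟩, e3⟩, e4⟩, e5⟩, e6⟩, e7⟩, e8⟩ := h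
    have h1 := hGval l c r
    rcases hl with rfl | rfl | rfl <;> rcases hc with rfl | rfl | rfl <;> rcases hr with rfl | rfl | rfl <;>
      (simp only [h0, e1, e2, e3, e4, e5, e6, e7, e8] at h1 ⊢; try (apply Fin.ext; simp at h1 ⊢; omega))
  · right; right
    refine all3 _ (fun l c r hl hc hr => ?_)
    obtain ⟨⟨⟨⟨⟨⟨⟨e1, e2⟩, e3⟩, e4⟩, e5⟩, e6⟩, e7⟩, e8⟩ := h
    have h1 := hGval l c r
    rcases hl with rfl | rfl | rfl <;> rcases hc with rfl | rfl | rfl <;> rcases hr with rfl | rfl | rfl <;>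
      (simp only [h0, e1, e2, e3, e4, e5, e6, e7, e8] at h1 ⊢; try (apply Fin.ext; simp at h1 ⊢; omega))
  · exfalso
    obtain ⟨⟨p, q⟩, hpq, hcoll⟩ := h
    have hne : ∀ pq ∈ pairsL, pq.1 ≠ pq.2 := by
      intro pq h
      simp only [pairsL, List.mem_cons, List.not_mem_nil, or_false] at h
      rcases h with rfl | rfl | rfl | rfl | rfl | rfl | rfl | rfl <;> decide
    apply hne _ hpq
    apply hinj4
    intro z
    have h2 := hcoll z
    rw [hpn, hpn] at h2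
    apply Fin.ext
    omega

theorem line_class {d : ℕ} (f : (Nb d → Fin 3) → Fin 3) (hf : NCT f)
    (hinj : Function.Injective (glob f)) (i : Fin d) :
    (∀ l c r, f (lpat i l c r) = l) ∨ (∀ l c r, f (lpat i l c r) = c) ∨ (∀ l c r, f (lpat i l c r) = r) :=
  abs_class (fun l c r => f (lpat i l c r)) (by
    show f (lpat i 0 0 0) = 0
    rw [lpat_zero, f_zero f hf]) (fun l c r => flux f hf i l c r) (fun p q h => inj4 f hinj i p q h)

end Pool.Agent.Q168.CA
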